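import Mathlib
import Pool.Agent.Helper15.UH.Goals

/-!
# Packet MONO of MP_ba83fc_ag

Monomial extension of a valuation ring of ℂ, with successive infinitesimals.
-/

namespace Pool.Agent.Helper72.UC

open UnrCoh

/-! ### Lexicographic positivity -/

theorem LexPos.add {n : ℕ} {α β : Fin n → ℤ} (ha : LexPos α) (hb : LexPos β) :
    LexPos (α + β) := by
  obtain ⟨i, hi, hi'⟩ := ha
  obtain ⟨k, hk, hk'⟩ := hb
  rcases lt_trichotomy i k with h | h | h
  · refine ⟨i, ?_, fun j hj => ?_⟩
    · rw [Pi.add_apply, hk' i h]; simpa using hi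
    · rw [Pi.add_apply, hi' j hj, hk' j (hj.trans h)]; rfl
  · subst h
    refine ⟨i, ?_, fun j hj => ?_⟩
    · rw [Pi.add_apply]; omega
    · rw [Pi.add_apply, hi' j hj, hk' j hj]; rfl
  · refine ⟨k, ?_, fun j hj => ?_⟩
    · rw [Pi.add_apply, hi' k h]; simpa using hk
    · rw [Pi.add_apply, hi' j (hj.trans h), hk' j hj]; rfl

theorem not_lexPos_zero {n : ℕ} : ¬ LexPos (0 : Fin n → ℤ) := by
  rintro ⟨i, hi, -⟩
  exact lt_irrefl _ hi

theorem lexPos_sub_of_lt {n : ℕ} {α β : Fin n → ℤ} (h : toLex α < toLex β) :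
    LexPos (β - α) := by
  obtain ⟨i, hi, hi'⟩ := h
  refine ⟨i, ?_, fun j hj => ?_⟩
  · rw [Pi.sub_apply]; exact sub_pos.mpr hi'
  · rw [Pi.sub_apply, sub_eq_zero]; exact (hi j hj).symm

section Sub

variable (A : ValuationSubring ℂ)

/-- elements of value `< 1`, or of value `1` if `p` holds -/
def sub (p : Prop) : AddSubgroup ℂ where
  carrier := {c | A.valuation c < 1 ∨ (A.valuation c = 1 ∧ p)}
  add_mem' := by
    intro c d hc hd
    by_cases hp : p
    · have hc' : A.valuation c ≤ 1 := by
        rcases hc with h | h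
        · exact h.le
        · exact h.1.le
      have hd' : A.valuation d ≤ 1 := by
        rcases hd with h | h
        · exact h.le
        · exact h.1.le
      have := A.valuation.map_add_le hc' hd'
      rcases this.lt_or_eq with h | h
      · exact Or.inl h
      · exact Or.inr ⟨h, hp⟩
    · have hc' : A.valuation c < 1 := by
        rcases hc with h | h
        · exact h
        · exact absurd h.2 hp
      have hd' : A.valuation d < 1 := by
        rcases hd with h | h
        · exact h
        · exact absurd h.2 hp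
      exact Or.inl (A.valuation.map_add_lt hc' hd')
  zero_mem' := by
    left
    rw [map_zero]
    exact zero_lt_one
  neg_mem' := by
    intro c hc
    simpa using hc

theorem mem_sub {p : Prop} {c : ℂ} :
    c ∈ sub A p ↔ A.valuation c < 1 ∨ (A.valuation c = 1 ∧ p) := Iff.rfl

theorem mul_mem_sub {p q r : Prop} (h : p → q → r) {c d : ℂ} (hc : c ∈ sub A p)
    (hd : d ∈ sub A q) : c * d ∈ sub A r := by
  rw [mem_sub] at *
  rw [map_mul]
  rcases hc with hc | ⟨hc, hp⟩
  · left
    have hd1 : A.valuation d ≤ 1 := by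
      rcases hd with hd | ⟨hd, -⟩
      · exact hd.le
      · exact hd.le
    exact (mul_le_of_le_one_right' hd1).trans_lt hc
  · rcases hd with hd | ⟨hd, hq⟩
    · left; rw [hc, one_mul]; exact hd
    · right; exact ⟨by rw [hc, hd, one_mul], h hp hq⟩

end Sub

section Mono

variable {E : Type} [Field E] [Algebra ℂ E] (A : ValuationSubring ℂ) {n : ℕ} (z : Fin n → E)

/-- the monomial with exponent vector `α` -/
noncomputable def mon (α : Fin n → ℤ) : E := ∏ i, z i ^ α i

omit [Algebra ℂ E] in
theorem mon_zero : mon z 0 = 1 := by simp [mon]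

variable {z} in
omit [Algebra ℂ E] in
theorem mon_add (hz : ∀ i, z i ≠ 0) (α β : Fin n → ℤ) : mon z (α + β) = mon z α * mon z β := by
  simp only [mon, ← Finset.prod_mul_distrib, Pi.add_apply]
  exact Finset.prod_congr rfl fun i _ => zpow_add₀ (hz i) _ _

variable {z} in
omit [Algebra ℂ E] in
theorem mon_ne_zero (hz : ∀ i, z i ≠ 0) (α : Fin n → ℤ) : mon z α ≠ 0 :=
  Finset.prod_ne_zero_iff.mpr fun i _ => zpow_ne_zero _ (hz i)

/-- the additive group of finite sums of terms `c z^α` with `c ∈ sub (p α)` -/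
noncomputable def sums (p : (Fin n → ℤ) → Prop) : AddSubgroup E :=
  AddSubgroup.closure {x | ∃ (c : ℂ) (α : Fin n → ℤ), c ∈ sub A (p α) ∧
    x = algebraMap ℂ E c * mon z α}

theorem term_mem_sums {p : (Fin n → ℤ) → Prop} {c : ℂ} {α : Fin n → ℤ} (h : c ∈ sub A (p α)) :
    algebraMap ℂ E c * mon z α ∈ sums A z p :=
  AddSubgroup.subset_closure ⟨c, α, h, rfl⟩

/-- every element is a sum with pairwise different exponents -/
theorem exists_of_mem_sums {p : (Fin n → ℤ) → Prop} {x : E} (hx : x ∈ sums A z p) :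
    ∃ f : (Fin n → ℤ) →₀ ℂ, (∀ α, f α ∈ sub A (p α)) ∧
      x = f.sum fun α c => algebraMap ℂ E c * mon z α := by
  induction hx using AddSubgroup.closure_induction with
  | mem x hx =>
    obtain ⟨c, α, hc, rfl⟩ := hx
    refine ⟨Finsupp.single α c, fun β => ?_, ?_⟩
    · rw [Finsupp.single_apply]
      split_ifs with h
      · rw [← h]; exact hc
      · exact AddSubgroup.zero_mem _
    · rw [Finsupp.sum_single_index]; simp
  | zero => exact ⟨0, fun β => AddSubgroup.zero_mem _, by simp⟩
  | add x y _ _ hx hy =>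
    obtain ⟨f, hf, rfl⟩ := hx
    obtain ⟨g, hg, rfl⟩ := hy
    refine ⟨f + g, fun β => AddSubgroup.add_mem _ (hf β) (hg β), ?_⟩
    rw [Finsupp.sum_add_index']
    · intro a; simp
    · intro a b c; rw [map_add, add_mul]
  | neg x _ hx =>
    obtain ⟨f, hf, rfl⟩ := hx
    refine ⟨-f, fun β => AddSubgroup.neg_mem _ (hf β), ?_⟩
    rw [Finsupp.sum_neg_index, ← Finsupp.sum_neg]
    · refine Finsupp.sum_congr fun a _ => ?_
      rw [map_neg, neg_mul]
    · intro a; simp

variable {z}

theorem mul_mem_sums (hz : ∀ i, z i ≠ 0) {p q r : (Fin n → ℤ) → Prop}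
    (h : ∀ α β, p α → q β → r (α + β)) {x y : E} (hx : x ∈ sums A z p) (hy : y ∈ sums A z q) :
    x * y ∈ sums A z r := by
  induction hx using AddSubgroup.closure_induction with
  | mem x hx =>
    obtain ⟨c, α, hc, rfl⟩ := hx
    induction hy using AddSubgroup.closure_induction with
    | mem y hy =>
      obtain ⟨d, β, hd, rfl⟩ := hy
      have : algebraMap ℂ E c * mon z α * (algebraMap ℂ E d * mon z β) =
          algebraMap ℂ E (c * d) * mon z (α + β) := by
        rw [mon_add hz, map_mul]; ring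
      rw [this]
      exact term_mem_sums A z (mul_mem_sub A (h α β) hc hd)
    | zero => rw [mul_zero]; exact AddSubgroup.zero_mem _
    | add y y' _ _ hy hy' => rw [mul_add]; exact AddSubgroup.add_mem _ hy hy'
    | neg y _ hy => rw [mul_neg]; exact AddSubgroup.neg_mem _ hy
  | zero => rw [zero_mul]; exact AddSubgroup.zero_mem _
  | add x x' _ _ hx hx' => rw [add_mul]; exact AddSubgroup.add_mem _ hx hx'
  | neg x _ hx => rw [neg_mul]; exact AddSubgroup.neg_mem _ hx

theorem one_mem_sub {p : Prop} (h : p) : (1 : ℂ) ∈ sub A p := by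
  right; exact ⟨map_one _, h⟩

/-- the ring of finite sums of terms `≤ 1` -/
noncomputable def ringR (hz : ∀ i, z i ≠ 0) : Subring E where
  carrier := sums A z fun α => LexPos α ∨ α = 0
  mul_mem' := by
    intro x y hx hy
    refine mul_mem_sums A hz ?_ hx hy
    rintro α β (ha | rfl) (hb | rfl)
    · exact Or.inl (LexPos.add ha hb)
    · rw [add_zero]; exact Or.inl ha
    · rw [zero_add]; exact Or.inl hb
    · rw [add_zero]; exact Or.inr rfl
  one_mem' := by
    have := term_mem_sums (E := E) A z (p := fun α => LexPos α ∨ α = 0) (c := 1) (α := 0)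
      (one_mem_sub A (Or.inr rfl))
    rwa [map_one, one_mul, mon_zero] at this
  add_mem' hx hy := AddSubgroup.add_mem _ hx hy
  zero_mem' := AddSubgroup.zero_mem _
  neg_mem' hx := AddSubgroup.neg_mem _ hx

/-- the ideal of finite sums of small terms -/
noncomputable def idJ (hz : ∀ i, z i ≠ 0) : Ideal (ringR A hz) where
  carrier := {x | (x : E) ∈ sums A z LexPos}
  add_mem' {x y} hx hy := by
    have := (sums A z LexPos).add_mem hx hy
    exact this
  zero_mem' := by
    have := (sums A z LexPos).zero_mem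
    exact this
  smul_mem' := by
    intro x y hy
    refine mul_mem_sums A hz ?_ x.2 hy
    rintro α β (ha | rfl) hb
    · exact LexPos.add ha hb
    · rwa [zero_add]

theorem one_not_mem (hz : AlgebraicIndependent ℂ z) : (1 : E) ∉ sums A z LexPos := by
  intro h1
  obtain ⟨f, hf, he⟩ := exists_of_mem_sums A z h1
  have hz0 : ∀ i, z i ≠ 0 := fun i => hz.ne_zero i
  -- shift
  obtain ⟨N, hN⟩ : ∃ N : ℕ, ∀ α ∈ f.support, ∀ i, 0 ≤ α i + N := by
    refine ⟨∑ α ∈ f.support, ∑ i, (α i).natAbs, fun α hα i => ?_⟩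
    have h1 : (α i).natAbs ≤ ∑ i, (α i).natAbs :=
      Finset.single_le_sum (f := fun i => (α i).natAbs) (fun _ _ => Nat.zero_le _)
        (Finset.mem_univ i)
    have h2 : ∑ i, (α i).natAbs ≤ ∑ α ∈ f.support, ∑ i, (α i).natAbs :=
      Finset.single_le_sum (f := fun α : Fin n → ℤ => ∑ i, (α i).natAbs)
        (fun _ _ => Nat.zero_le _) hα
    omega
  let s : (Fin n → ℤ) → (Fin n →₀ ℕ) := fun α =>
    Finsupp.equivFunOnFinite.symm fun i => (α i + N).toNat
  have hs : ∀ α : Fin n → ℤ, (∀ i, 0 ≤ α i + N) → ∀ c : ℂ,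
      MvPolynomial.aeval z (MvPolynomial.monomial (s α) c) =
        algebraMap ℂ E c * mon z α * mon z (fun _ => (N : ℤ)) := by
    intro α hα c
    rw [MvPolynomial.aeval_monomial, mul_assoc, ← mon_add hz0, Finsupp.prod_fintype]
    · congr 1
      refine Finset.prod_congr rfl fun i _ => ?_
      change z i ^ (α i + N).toNat = z i ^ (α i + N)
      rw [← zpow_natCast, Int.toNat_of_nonneg (hα i)]
    · intro i; exact pow_zero _
  have hinj : ∀ α ∈ f.support, s α = s 0 → α = 0 := by
    intro α hα h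
    funext i
    have := DFunLike.congr_fun h i
    change (α i + N).toNat = ((0 : Fin n → ℤ) i + N).toNat at this
    have h2 := hN α hα i
    simp only [Pi.zero_apply, zero_add, Int.toNat_natCast] at this
    simp only [Pi.zero_apply]
    omega
  have hpoly : MvPolynomial.monomial (s 0) (1 : ℂ) =
      ∑ α ∈ f.support, MvPolynomial.monomial (s α) (f α) := by
    apply hz
    change MvPolynomial.aeval z _ = MvPolynomial.aeval z _
    rw [map_sum, hs 0 (fun i => by simp), map_one, mon_zero, mul_one]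
    rw [Finset.sum_congr rfl fun α hα => hs α (hN α hα) (f α), ← Finset.sum_mul]
    congr 1
  have hcoef := congrArg (MvPolynomial.coeff (s 0)) hpoly
  rw [MvPolynomial.coeff_monomial, if_pos rfl, MvPolynomial.coeff_sum] at hcoef
  have hsum : ∑ α ∈ f.support, MvPolynomial.coeff (s 0) (MvPolynomial.monomial (s α) (f α)) =
      f 0 := by
    rw [Finset.sum_eq_single 0]
    · rw [MvPolynomial.coeff_monomial, if_pos rfl]
    · intro α hα h0
      rw [MvPolynomial.coeff_monomial, if_neg fun h => h0 (hinj α hα h)]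
    · intro h
      rw [MvPolynomial.coeff_monomial, if_pos rfl]
      simpa using h
  rw [hsum] at hcoef
  have := hf 0
  rw [← hcoef] at this
  rcases this with h | ⟨-, h⟩
  · rw [map_one] at h
    exact lt_irrefl _ h
  · exact not_lexPos_zero h

/-- the dominant term of a nonzero polynomial -/
theorem exists_dominant (hz : ∀ i, z i ≠ 0) (W : ValuationSubring E)
    (hW : ∀ (c : ℂ) (α : Fin n → ℤ), c ∈ sub A (LexPos α) →
      W.valuation (algebraMap ℂ E c * mon z α) < 1)
    (r : MvPolynomial (Fin n) ℂ) (hr : r ≠ 0) :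
    ∃ (c : ℂ) (α : Fin n → ℤ), c ≠ 0 ∧
      W.valuation (MvPolynomial.aeval z r) = W.valuation (algebraMap ℂ E c * mon z α) := by
  have hne : r.support.Nonempty := by
    rwa [Finset.nonempty_iff_ne_empty, ne_eq, MvPolynomial.support_eq_empty]
  let ex : (Fin n →₀ ℕ) → (Fin n → ℤ) := fun m i => (m i : ℤ)
  let key : (Fin n →₀ ℕ) → A.ValueGroup ×ₗ (Lex (Fin n → ℤ))ᵒᵈ := fun m =>
    toLex (A.valuation (MvPolynomial.coeff m r), OrderDual.toDual (toLex (ex m)))
  obtain ⟨m₀, hm₀, hmax⟩ := Finset.exists_max_image r.support key hne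
  have hc₀ : MvPolynomial.coeff m₀ r ≠ 0 := MvPolynomial.mem_support_iff.mp hm₀
  have hv₀ : A.valuation (MvPolynomial.coeff m₀ r) ≠ 0 := (Valuation.ne_zero_iff _).mpr hc₀
  refine ⟨MvPolynomial.coeff m₀ r, ex m₀, hc₀, ?_⟩
  have hT₀ : algebraMap ℂ E (MvPolynomial.coeff m₀ r) * mon z (ex m₀) ≠ 0 :=
    mul_ne_zero (by simpa using hc₀) (mon_ne_zero hz _)
  have hexp : MvPolynomial.aeval z r =
      (algebraMap ℂ E (MvPolynomial.coeff m₀ r) * mon z (ex m₀)) *
        (1 + ∑ m ∈ r.support.erase m₀,
          algebraMap ℂ E (MvPolynomial.coeff m r / MvPolynomial.coeff m₀ r) *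
            mon z (ex m - ex m₀)) := by
    rw [MvPolynomial.aeval_def, MvPolynomial.eval₂_eq', mul_add, mul_one,
      ← Finset.add_sum_erase _ _ hm₀, Finset.mul_sum]
    congr 1
    · congr 1
      refine Finset.prod_congr rfl fun i _ => ?_
      change z i ^ (m₀ i) = z i ^ (m₀ i : ℤ)
      rw [zpow_natCast]
    · refine Finset.sum_congr rfl fun m _ => ?_
      have h1 : mon z (ex m) = mon z (ex m - ex m₀) * mon z (ex m₀) := by
        rw [← mon_add hz, sub_add_cancel]
      have h2 : (∏ i, z i ^ m i) = mon z (ex m) := by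
        refine Finset.prod_congr rfl fun i _ => ?_
        change z i ^ (m i) = z i ^ (m i : ℤ)
        rw [zpow_natCast]
      have h3 : algebraMap ℂ E (MvPolynomial.coeff m r) =
          algebraMap ℂ E (MvPolynomial.coeff m r / MvPolynomial.coeff m₀ r) *
            algebraMap ℂ E (MvPolynomial.coeff m₀ r) := by
        rw [← map_mul, div_mul_cancel₀ _ hc₀]
      rw [h3, h2, h1]
      ring
  rw [hexp, map_mul, W.valuation.map_one_add_of_lt, mul_one]
  refine W.valuation.map_sum_lt one_ne_zero fun m hm => ?_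
  apply hW
  have hm' := Finset.mem_of_mem_erase hm
  have hne' := Finset.ne_of_mem_erase hm
  have hle := hmax m hm'
  rw [mem_sub, map_div₀]
  rcases (Prod.Lex.toLex_le_toLex.mp hle) with h | ⟨h, h'⟩
  · left
    exact (div_lt_one₀ (zero_lt_iff.mpr hv₀)).mpr h
  · right
    have h1 : A.valuation (MvPolynomial.coeff m r) = A.valuation (MvPolynomial.coeff m₀ r) := h
    refine ⟨by rw [h1, div_self hv₀], ?_⟩
    apply lexPos_sub_of_lt
    have h2 : toLex (ex m₀) ≤ toLex (ex m) := h'
    refine lt_of_le_of_ne h2 fun h3 => hne' ?_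
    ext i
    have := congrFun (toLex.injective h3) i
    change (m₀ i : ℤ) = (m i : ℤ) at this
    exact_mod_cast this.symm

theorem mono : S_MONO := by
  intro E _ _ A n z hz
  have hz0 : ∀ i, z i ≠ 0 := fun i => hz.ne_zero i
  have hJ : idJ A hz0 ≠ ⊤ := by
    intro h
    have h1 : (1 : ringR A hz0) ∈ idJ A hz0 := by rw [h]; trivial
    have h2 : ((1 : ringR A hz0) : E) ∈ sums A z LexPos := h1
    exact one_not_mem A hz h2
  obtain ⟨W, hRW, hJW⟩ := Ideal.image_subset_nonunits_valuationSubring _ hJ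
  have hsmall : ∀ (c : ℂ) (α : Fin n → ℤ), c ∈ sub A (LexPos α) →
      W.valuation (algebraMap ℂ E c * mon z α) < 1 := by
    intro c α hc
    have hR : algebraMap ℂ E c * mon z α ∈ ringR A hz0 := by
      refine term_mem_sums A z (p := fun α => LexPos α ∨ α = 0) ?_
      rcases hc with h | ⟨h, h'⟩
      · exact Or.inl h
      · exact Or.inr ⟨h, Or.inl h'⟩
    have hmem0 : algebraMap ℂ E c * mon z α ∈ sums A z LexPos :=
      term_mem_sums A z (p := LexPos) hc
    have hmem : (⟨_, hR⟩ : ringR A hz0) ∈ idJ A hz0 := by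
      change algebraMap ℂ E c * mon z α ∈ sums A z LexPos
      exact hmem0
    exact hJW ⟨_, hmem, rfl⟩
  have hle : ∀ c : ℂ, A.valuation c = 1 → W.valuation (algebraMap ℂ E c) ≤ 1 := by
    intro c hc
    rw [W.valuation_le_one_iff]
    apply hRW
    have h1 : algebraMap ℂ E c * mon z 0 ∈ ringR A hz0 :=
      term_mem_sums A z (p := fun α => LexPos α ∨ α = 0) (Or.inr ⟨hc, Or.inr rfl⟩)
    rwa [mon_zero, mul_one] at h1
  refine ⟨W, fun c hc => ?_, fun c α _ hc => hsmall c α hc, ?_⟩
  · have hc0 : c ≠ 0 := by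
      rintro rfl
      rw [map_zero] at hc
      exact zero_ne_one hc
    have h1 := hle c hc
    have h2 := hle c⁻¹ (by rw [map_inv₀, hc, inv_one])
    rw [map_inv₀, map_inv₀] at h2
    have h3 : W.valuation (algebraMap ℂ E c) ≠ 0 := by
      rw [Valuation.ne_zero_iff]
      simpa using hc0
    exact le_antisymm h1 ((inv_le_one₀ (zero_lt_iff.mpr h3)).mp h2)
  · intro g hg hg0
    rw [IntermediateField.mem_adjoin_range_iff] at hg
    obtain ⟨r, s, rfl⟩ := hg
    have hr : r ≠ 0 := by
      rintro rfl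
      simp at hg0
    have hs : s ≠ 0 := by
      rintro rfl
      simp at hg0
    obtain ⟨c, α, hc, h1⟩ := exists_dominant A hz0 W hsmall r hr
    obtain ⟨d, β, hd, h2⟩ := exists_dominant A hz0 W hsmall s hs
    refine ⟨c / d, α - β, div_ne_zero hc hd, ?_⟩
    have h3 : mon z α = mon z (α - β) * mon z β := by rw [← mon_add hz0, sub_add_cancel]
    rw [map_div₀ W.valuation, h1, h2, ← map_div₀ W.valuation, h3]
    congr 1
    change _ = algebraMap ℂ E (c / d) * mon z (α - β)
    have h4 := mon_ne_zero hz0 β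
    have h5 : algebraMap ℂ E d ≠ 0 := by simpa using hd
    rw [map_div₀]
    field_simp

end Mono

end Pool.Agent.Helper72.UC
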