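import Pool.Agent.Helper27.UC.Goals8

/-!
# Project UC part 6 (MP_d3128a_ag), packet VOI2
-/

set_option autoImplicit false

namespace Pool.Agent.Helper72.UC.VOI2

open Pool.Agent.Helper27.UC

theorem s1 (S : Multiset ℕ) : (S.map fun v => v * (2 * v + 1)).sum =
    2 * (S.map fun v => v ^ 2).sum + S.sum := by
  induction S using Multiset.induction_on with
  | empty => simp
  | cons a S ih =>
    simp only [Multiset.map_cons, Multiset.sum_cons, ih]
    ring

theorem s2 (S : Multiset ℕ) : (S.map fun v => v * (2 * v)).sum =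
    2 * (S.map fun v => v ^ 2).sum := by
  induction S using Multiset.induction_on with
  | empty => simp
  | cons a S ih =>
    simp only [Multiset.map_cons, Multiset.sum_cons, ih]
    ring

theorem s3 (X : Multiset (ℕ × ℕ)) : (X.map fun p => 4 * p.1 * (2 * p.2 + 1)).sum =
    8 * (X.map fun p => p.1 * p.2).sum + 4 * (X.map Prod.fst).sum := by
  induction X using Multiset.induction_on with
  | empty => simp
  | cons a S ih =>
    simp only [Multiset.map_cons, Multiset.sum_cons, ih]
    ring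

theorem s4 (X : Multiset (ℕ × ℕ)) : (X.map fun p => 4 * p.1 * (2 * p.2)).sum =
    8 * (X.map fun p => p.1 * p.2).sum := by
  induction X using Multiset.induction_on with
  | empty => simp
  | cons a S ih =>
    simp only [Multiset.map_cons, Multiset.sum_cons, ih]
    ring

theorem s5 (S : Multiset ℕ) : 4 * (S.map fun v => v ^ 2).sum ≤
    (S.map fun v => 2 * v * (2 * v + 1)).sum := by
  induction S using Multiset.induction_on with
  | empty => simp
  | cons a S ih =>
    simp only [Multiset.map_cons, Multiset.sum_cons]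
    nlinarith

theorem s6 (S : Multiset ℕ) : 4 * (S.map fun v => v ^ 2).sum =
    (S.map fun v => 2 * v * (2 * v)).sum := by
  induction S using Multiset.induction_on with
  | empty => simp
  | cons a S ih =>
    simp only [Multiset.map_cons, Multiset.sum_cons, ← ih]
    ring

theorem t (hEM : S_EM3) (hHEB : S_HEB) (hPULL : S_PULL) : S_VOI2 := by
  intro c Q M d N u A2 A0 B2 B0 P hH hd A B u' hu'
  obtain ⟨-, -, k3, -, k5, -, -⟩ := hHEB c Q M _ _ P hH
  obtain ⟨-, hQ, -, hh, hl, hP, -⟩ := id hH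
  set G : Multiset (ℕ × ℕ) := A2.map (fun v => (v, 2 * v + 1)) + B2.map (fun v => (v, 2 * v))
    with hG
  have hG2 : u' ::ₘ (A + B) = G.map Prod.snd := by
    rw [hu', hG, Multiset.map_add, Multiset.map_map, Multiset.map_map]
    rfl
  obtain ⟨x, X, Y, hx, hxu, hXA, hYB⟩ := hPULL (ℕ × ℕ) Prod.snd G u' A B hG2
  -- members of G
  have hmem : ∀ p ∈ G, p.1 ∈ A2 + B2 ∧ p.2 ≤ 2 * p.1 + 1 ∧ 2 * p.1 ≤ p.2 := by
    intro p hp
    rw [hG, Multiset.mem_add, Multiset.mem_map, Multiset.mem_map] at hp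
    rcases hp with ⟨v, hv, rfl⟩ | ⟨v, hv, rfl⟩
    · exact ⟨Multiset.mem_add.2 (Or.inl hv), le_rfl, by simp⟩
    · exact ⟨Multiset.mem_add.2 (Or.inr hv), by simp, le_rfl⟩
  have hxG : x ∈ G := by
    rw [← hx]
    exact Multiset.mem_cons_self _ _
  have hYG : ∀ p ∈ Y, p ∈ G := by
    intro p hp
    rw [← hx]
    exact Multiset.mem_cons_of_mem (Multiset.mem_add.2 (Or.inr hp))
  obtain ⟨hx1, hx2, hx3⟩ := hmem x hxG
  have hx4 : 2 ≤ x.1 := (hh _ hx1).1
  have hx5 : 10 ^ 4 * x.1 ≤ M := k5 _ hx1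
  have hu2 : 2 ≤ u := (hl u (Multiset.mem_cons_self _ _)).1
  -- sums
  have f1 : x.1 * x.2 + ((X.map fun p => p.1 * p.2).sum + (Y.map fun p => p.1 * p.2).sum) =
      2 * ((A2 + B2).map fun v => v ^ 2).sum + A2.sum := by
    have h1 : ((x ::ₘ (X + Y)).map fun p => p.1 * p.2).sum = (G.map fun p => p.1 * p.2).sum := by
      rw [hx]
    rw [Multiset.map_cons, Multiset.sum_cons, Multiset.map_add, Multiset.sum_add, hG,
      Multiset.map_add, Multiset.sum_add, Multiset.map_map, Multiset.map_map] at h1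
    rw [h1, Multiset.map_add, Multiset.sum_add]
    have h2 := s1 A2
    have h3 := s2 B2
    change (A2.map fun v => v * (2 * v + 1)).sum + (B2.map fun v => v * (2 * v)).sum = _
    rw [h2, h3]
    ring
  have f2 : x.1 + ((X.map Prod.fst).sum + (Y.map Prod.fst).sum) = A2.sum + B2.sum := by
    have h1 : ((x ::ₘ (X + Y)).map Prod.fst).sum = (G.map Prod.fst).sum := by
      rw [hx]
    rw [Multiset.map_cons, Multiset.sum_cons, Multiset.map_add, Multiset.sum_add, hG,
      Multiset.map_add, Multiset.sum_add, Multiset.map_map, Multiset.map_map] at h1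
    rw [h1]
    have h2 : (A2.map (Prod.fst ∘ fun v => (v, 2 * v + 1))) = A2 := by
      change A2.map (fun v => v) = A2
      exact Multiset.map_id' A2
    have h3 : (B2.map (Prod.fst ∘ fun v => (v, 2 * v))) = B2 := by
      change B2.map (fun v => v) = B2
      exact Multiset.map_id' B2
    rw [h2, h3]
  have f3 : 2 * (Y.map Prod.fst).sum ≤ B.sum := by
    rw [← hYB, ← Multiset.sum_map_mul_left]
    exact Multiset.sum_map_le_sum_map _ _ fun p hp => (hmem p (hYG p hp)).2.2
  -- the multisets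
  set tt := (0 + B.sum) / u' with htt
  set q := (N + (4 • B2 + B0).sum) / u with hq
  set Th : Multiset (ℕ × ℕ) := (x.1, 2 * u' + 1 + tt) ::ₘ
    (X.map (fun p => (p.1, 2 * p.2 + 1)) + Y.map (fun p => (p.1, 2 * p.2))) with hTh
  set Tl : Multiset (ℕ × ℕ) := (u, 2 * u + 1 + q) ::ₘ
    (A0.map (fun v => (v, 2 * v + 1)) + B0.map (fun v => (v, 2 * v))) with hTl
  have e1 : Th.map Prod.fst = A2 + B2 := by
    have h1 : (x ::ₘ (X + Y)).map Prod.fst = G.map Prod.fst := by
      rw [hx]
    have h2 : G.map Prod.fst = A2 + B2 := by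
      rw [hG, Multiset.map_add, Multiset.map_map, Multiset.map_map]
      change A2.map (fun v => v) + B2.map (fun v => v) = _
      rw [Multiset.map_id', Multiset.map_id']
    rw [← h2, ← h1, hTh]
    simp only [Multiset.map_cons, Multiset.map_add, Multiset.map_map]
    rfl
  have e2 : Tl.map Prod.fst = u ::ₘ (A0 + B0) := by
    rw [hTl]
    simp only [Multiset.map_cons, Multiset.map_add, Multiset.map_map]
    change u ::ₘ (A0.map (fun v => v) + B0.map (fun v => v)) = _
    rw [Multiset.map_id', Multiset.map_id']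
  have e3 : Th.map Prod.snd + Tl.map Prod.snd + P.map Prod.snd =
      (2 * u' + 1 + tt) ::ₘ
      (A.map (fun v => 2 * v + 1) + B.map (fun v => 2 * v) +
        ((2 * u + 1 + q) ::ₘ
          (A0.map (fun v => 2 * v + 1) + B0.map (fun v => 2 * v) + P.map Prod.snd))) := by
    rw [hTh, hTl, ← hXA, ← hYB]
    simp only [Multiset.map_cons, Multiset.map_add, Multiset.map_map, Multiset.cons_add,
      Multiset.add_cons, add_assoc]
    rw [Multiset.cons_swap]
    rfl
  rw [← e3]
  refine hEM c Q M d _ _ P Th Tl hH hd e1 e2 ?_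
  -- the weight
  have w1 : (Th.map fun p => 4 * p.1 * p.2).sum =
      4 * x.1 * (2 * u' + 1 + tt) + (8 * (X.map fun p => p.1 * p.2).sum +
        4 * (X.map Prod.fst).sum + 8 * (Y.map fun p => p.1 * p.2).sum) := by
    rw [← s3, ← s4, hTh]
    simp only [Multiset.map_cons, Multiset.map_add, Multiset.map_map, Multiset.sum_cons,
      Multiset.sum_add]
    rfl
  have w2 : 4 * ((u ::ₘ (A0 + B0)).map fun v => v ^ 2).sum + 2 * (u * (1 + q)) ≤
      (Tl.map fun p => 2 * p.1 * p.2).sum := by
    have h1 := s5 A0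
    have h2 := s6 B0
    have h3 : (Tl.map fun p => 2 * p.1 * p.2).sum = 2 * u * (2 * u + 1 + q) +
        ((A0.map fun v => 2 * v * (2 * v + 1)).sum + (B0.map fun v => 2 * v * (2 * v)).sum) := by
      rw [hTl]
      simp only [Multiset.map_cons, Multiset.map_add, Multiset.map_map, Multiset.sum_cons,
        Multiset.sum_add]
      rfl
    rw [h3]
    simp only [Multiset.map_cons, Multiset.map_add, Multiset.sum_cons, Multiset.sum_add]
    nlinarith
  have w3 : (P.map fun p => p.2 ^ 2).sum ≤ (P.map fun p => p.1 * p.2).sum := by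
    refine Multiset.sum_map_le_sum_map _ _ fun p hp => ?_
    rw [pow_two]
    exact Nat.mul_le_mul_right _ (hP p hp).2.1
  have w4 : 4 * B2.sum ≤ u * (1 + q) := by
    have h1 : N + (4 • B2 + B0).sum < u * (q + 1) := Nat.lt_mul_div_succ _ (by omega)
    have h2 : (4 • B2 + B0).sum = 4 * B2.sum + B0.sum := by
      rw [Multiset.sum_add, Multiset.sum_nsmul, smul_eq_mul]
    rw [h2] at h1
    have h3 : u * (q + 1) = u * (1 + q) := by ring
    omega
  have w5 : B.sum ≤ u' * (1 + tt) := by
    have h1 : 0 + B.sum < u' * (tt + 1) := Nat.lt_mul_div_succ _ (by omega)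
    have h3 : u' * (tt + 1) = u' * (1 + tt) := by ring
    omega
  have w6 : 4 * (Y.map Prod.fst).sum ≤ 5 * (x.1 * (1 + tt)) := by
    have h1 : 2 * u' ≤ 5 * x.1 := by omega
    have h2 : 2 * u' * (1 + tt) ≤ 5 * x.1 * (1 + tt) := Nat.mul_le_mul_right _ h1
    nlinarith
  have hQ' : Q = 16 * ((A2 + B2).map fun v => v ^ 2).sum +
      4 * ((u ::ₘ (A0 + B0)).map fun v => v ^ 2).sum + (P.map fun p => p.2 ^ 2).sum := hQ
  have hs : (A2 + B2).sum = A2.sum + B2.sum := Multiset.sum_add _ _
  rw [hs] at k3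
  unfold wt
  rw [w1, hQ']
  rw [hxu] at f1
  have g1 : 4 * x.1 * (2 * u' + 1 + tt) = 8 * (x.1 * u') + 4 * (x.1 * (1 + tt)) := by ring
  rw [g1]
  omega

end Pool.Agent.Helper72.UC.VOI2
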