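import Pool.Agent.Helper27.UC.Goals5

/-!
PROJECT UC (MP_d3128a_ag): packet TWOV, the degrees next to the critical one, two levels of gluing.
-/

set_option autoImplicit false

noncomputable section

namespace Pool.Agent.Helper72.UC.TWOV

open Pool.Agent.Helper27.UC

/-! ### Multisets with prescribed numbers of copies -/

section

variable {β γ : Type} [DecidableEq β] [DecidableEq γ]

/-- `f x` copies of `h x` for all `x` in `V` -/
def rep (V : Finset ℕ) (f : ℕ → ℕ) (h : ℕ → β) : Multiset β :=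
  ∑ x ∈ V, Multiset.replicate (f x) (h x)

omit [DecidableEq β] [DecidableEq γ] in
theorem map_rep (V : Finset ℕ) (f : ℕ → ℕ) (h : ℕ → β) (F : β → γ) :
    (rep V f h).map F = rep V f (fun x => F (h x)) := by
  unfold rep
  induction V using Finset.induction_on with
  | empty => simp
  | insert a s ha ih =>
    rw [Finset.sum_insert ha, Multiset.map_add, ih, Finset.sum_insert ha, Multiset.map_replicate]

omit [DecidableEq β] in
theorem sum_map_rep (V : Finset ℕ) (f : ℕ → ℕ) (h : ℕ → β) (F : β → ℕ) :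
    ((rep V f h).map F).sum = ∑ x ∈ V, f x * F (h x) := by
  unfold rep
  induction V using Finset.induction_on with
  | empty => simp
  | insert a s ha ih =>
    rw [Finset.sum_insert ha, Multiset.map_add, Multiset.sum_add, ih, Finset.sum_insert ha,
      Multiset.map_replicate, Multiset.sum_replicate, smul_eq_mul]

theorem sum_rep (V : Finset ℕ) (f h : ℕ → ℕ) : (rep V f h).sum = ∑ x ∈ V, f x * h x := by
  have h1 := sum_map_rep V f h id
  rwa [Multiset.map_id] at h1

omit [DecidableEq β] in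
theorem mem_rep {V : Finset ℕ} {f : ℕ → ℕ} {h : ℕ → β} {b : β} (hb : b ∈ rep V f h) :
    ∃ x ∈ V, b = h x := by
  obtain ⟨x, hx, hv⟩ := Multiset.mem_sum.1 hb
  exact ⟨x, hx, Multiset.eq_of_mem_replicate hv⟩

theorem count_rep {V : Finset ℕ} (f : ℕ → ℕ) (h : ℕ → β) (hi : Function.Injective h) {x : ℕ}
    (hx : x ∈ V) : Multiset.count (h x) (rep V f h) = f x := by
  unfold rep
  rw [Multiset.count_sum', Finset.sum_eq_single x]
  · rw [Multiset.count_replicate_self]
  · intro y _ hyx
    rw [Multiset.count_replicate, if_neg fun h1 => hyx (hi h1)]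
  · intro h
    exact absurd hx h

theorem count_rep_ne {V : Finset ℕ} (f : ℕ → ℕ) (h : ℕ → β) {b : β} (hb : ∀ y, h y ≠ b) :
    Multiset.count b (rep V f h) = 0 := by
  rw [Multiset.count_eq_zero]
  intro h1
  obtain ⟨x, -, h2⟩ := mem_rep h1
  exact hb x h2.symm

omit [DecidableEq β] in
theorem rep_add (V : Finset ℕ) (f g : ℕ → ℕ) (h : ℕ → β) :
    rep V f h + rep V g h = rep V (fun x => f x + g x) h := by
  unfold rep
  rw [← Finset.sum_add_distrib]
  refine Finset.sum_congr rfl fun x _ => ?_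
  rw [← Multiset.replicate_add]

omit [DecidableEq β] in
theorem rep_smul (V : Finset ℕ) (n : ℕ) (f : ℕ → ℕ) (h : ℕ → β) :
    n • rep V f h = rep V (fun x => n * f x) h := by
  unfold rep
  rw [Finset.smul_sum]
  refine Finset.sum_congr rfl fun x _ => ?_
  rw [Multiset.nsmul_replicate]

omit [DecidableEq β] in
theorem rep_congr {V : Finset ℕ} {f g : ℕ → ℕ} {h h' : ℕ → β} (h1 : ∀ x ∈ V, f x = g x)
    (h2 : ∀ x ∈ V, h x = h' x) : rep V f h = rep V g h' := by
  unfold rep
  refine Finset.sum_congr rfl fun x hx => ?_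
  rw [h1 x hx, h2 x hx]

/-- sums over a multiset by counting -/
theorem sum_count (I : Finset β) (N F : β → ℕ) (M : Multiset β) (h1 : ∀ b ∈ M, b ∈ I)
    (h2 : ∀ i ∈ I, Multiset.count i M = N i) : (M.map F).sum = ∑ i ∈ I, N i * F i := by
  rw [Finset.sum_multiset_map_count]
  have h3 : ∑ m ∈ M.toFinset, Multiset.count m M • F m = ∑ m ∈ I, Multiset.count m M • F m := by
    refine Finset.sum_subset (fun b hb => h1 b (Multiset.mem_toFinset.1 hb)) fun b _ hb => ?_
    rw [Multiset.count_eq_zero.2 fun h => hb (Multiset.mem_toFinset.2 h), zero_smul]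
  rw [h3]
  refine Finset.sum_congr rfl fun i hi => ?_
  rw [h2 i hi, smul_eq_mul]

theorem card_filter (T : Multiset (β × ℕ)) (i : β) :
    Multiset.card (T.filter (fun p => p.1 = i)) = Multiset.count i (T.map Prod.fst) := by
  rw [Multiset.count_map]
  congr 1
  exact Multiset.filter_congr fun p _ => eq_comm

end

/-! ### The emptiness in the gluing -/

theorem em (hE : S_EMG) {ι : Type} [DecidableEq ι] (d k Q : ℕ) (I : Finset ι) (a N : ι → ℕ)
    (g A B : Multiset ℕ) (u q : ℕ) (φ : ℕ → ι) (L : Multiset (ι × ℕ))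
    (hg : u ::ₘ (A + B) = g) (hφ : ∀ v ∈ g, φ v ∈ I ∧ a (φ v) = 2 * v)
    (hL : ∀ p ∈ L, p.1 ∈ I ∧ a p.1 = p.2)
    (hN : ∀ i ∈ I, Multiset.count i (g.map φ) + Multiset.count i (L.map Prod.fst) = N i)
    (hI : I.Nonempty) (hk : 3 ≤ k) (hk2 : 2 * I.card ≤ (k - 1) * (k - 2))
    (hr : ∀ i ∈ I, 0 < a i ∧ 2 ≤ N i ∧ (k * a i) ^ 2 ≤ Q ∧ Q ≤ (k * (N i * a i)) ^ 2)
    (hQ : Q = ∑ i ∈ I, N i * a i ^ 2)
    (hm : Q * d ^ 2 < (Q + 2 * A.sum + 2 * (u * (q + 1))) ^ 2) :
    gd d ((2 * u + 1 + q) ::ₘ (A.map (fun v => 2 * v + 1) + B.map (fun v => 2 * v) +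
      L.map Prod.snd)) = 0 := by
  obtain ⟨T, hT⟩ : ∃ T : Multiset (ι × ℕ), T = (φ u, 2 * u + 1 + q) ::ₘ
    (A.map (fun v => (φ v, 2 * v + 1)) + B.map (fun v => (φ v, 2 * v)) + L) := ⟨_, rfl⟩
  have hTs : T.map Prod.snd = (2 * u + 1 + q) ::ₘ (A.map (fun v => 2 * v + 1) +
      B.map (fun v => 2 * v) + L.map Prod.snd) := by
    rw [hT, Multiset.map_cons, Multiset.map_add, Multiset.map_add, Multiset.map_map,
      Multiset.map_map]
    rfl
  have hTf : T.map Prod.fst = g.map φ + L.map Prod.fst := by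
    rw [hT, ← hg, Multiset.map_cons, Multiset.map_add, Multiset.map_add, Multiset.map_map,
      Multiset.map_map, Multiset.map_cons, Multiset.map_add, Multiset.cons_add]
    rfl
  have hc : ∀ i ∈ I, Multiset.count i (T.map Prod.fst) = N i := by
    intro i hi
    rw [hTf, Multiset.count_add, hN i hi]
  have hmem : ∀ i ∈ T.map Prod.fst, i ∈ I := by
    intro i hi
    rw [hTf, Multiset.mem_add, Multiset.mem_map, Multiset.mem_map] at hi
    rcases hi with ⟨v, hv, rfl⟩ | ⟨p, hp, rfl⟩
    · exact (hφ v hv).1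
    · exact (hL p hp).1
  rw [← hTs]
  refine hE ι d k Q I a N T hI ?_ ?_ hk hk2 hr hQ ?_
  · intro p hp
    exact hmem _ (Multiset.mem_map_of_mem _ hp)
  · intro i hi
    rw [card_filter, hc i hi]
  · -- the sum
    have hQ2 : Q = (T.map fun p => a p.1 ^ 2).sum := by
      rw [hQ, ← sum_count I N (fun i => a i ^ 2) (T.map Prod.fst) hmem hc, Multiset.map_map]
      rfl
    have hA : ∀ v ∈ A, a (φ v) = 2 * v := fun v hv => (hφ v (by
      rw [← hg]; exact Multiset.mem_cons_of_mem (Multiset.mem_add.2 (Or.inl hv)))).2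
    have hB : ∀ v ∈ B, a (φ v) = 2 * v := fun v hv => (hφ v (by
      rw [← hg]; exact Multiset.mem_cons_of_mem (Multiset.mem_add.2 (Or.inr hv)))).2
    have hu : a (φ u) = 2 * u := (hφ u (by rw [← hg]; exact Multiset.mem_cons_self _ _)).2
    have e1 : (T.map fun p => a p.1 * p.2).sum = 2 * u * (2 * u + 1 + q) +
        ((A.map fun v => 2 * v * (2 * v + 1)).sum + (B.map fun v => 2 * v * (2 * v)).sum +
          (L.map fun p => a p.1 ^ 2).sum) := by
      rw [hT, Multiset.map_cons, Multiset.map_add, Multiset.map_add, Multiset.map_map,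
        Multiset.map_map, Multiset.sum_cons, Multiset.sum_add, Multiset.sum_add]
      simp only [Function.comp_def]
      rw [hu, Multiset.map_congr rfl fun v hv => by rw [hA v hv],
        Multiset.map_congr (s := B) rfl fun v hv => by rw [hB v hv],
        Multiset.map_congr (s := L) (f := fun p => a p.1 * p.2) rfl
          fun p hp => by rw [← (hL p hp).2, ← pow_two]]
    have e2 : (T.map fun p => a p.1 ^ 2).sum = (2 * u) ^ 2 +
        ((A.map fun v => (2 * v) ^ 2).sum + (B.map fun v => (2 * v) ^ 2).sum +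
          (L.map fun p => a p.1 ^ 2).sum) := by
      rw [hT, Multiset.map_cons, Multiset.map_add, Multiset.map_add, Multiset.map_map,
        Multiset.map_map, Multiset.sum_cons, Multiset.sum_add, Multiset.sum_add]
      simp only [Function.comp_def]
      rw [hu, Multiset.map_congr rfl fun v hv => by rw [hA v hv],
        Multiset.map_congr (s := B) rfl fun v hv => by rw [hB v hv]]
    have e3 : (A.map fun v => 2 * v * (2 * v + 1)).sum =
        (A.map fun v => (2 * v) ^ 2).sum + 2 * A.sum := by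
      clear hg hφ hN hm hT hTs hTf hc hmem hQ2 hA e1 e2
      induction A using Multiset.induction_on with
      | empty => simp
      | cons b s ih =>
        simp only [Multiset.map_cons, Multiset.sum_cons]
        rw [ih]
        ring
    have e4 : (B.map fun v => 2 * v * (2 * v)).sum = (B.map fun v => (2 * v) ^ 2).sum := by
      refine congrArg Multiset.sum (Multiset.map_congr rfl fun v _ => ?_)
      ring
    rw [e2] at hQ2
    rw [e1, e3, e4]
    have e5 : Q + 2 * A.sum + 2 * (u * (q + 1)) = 2 * u * (2 * u + 1 + q) +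
        ((A.map fun v => (2 * v) ^ 2).sum + 2 * A.sum + (B.map fun v => (2 * v) ^ 2).sum +
          (L.map fun p => a p.1 ^ 2).sum) := by
      rw [hQ2]
      ring
    rw [← e5]
    exact hm

/-! ### Three rows -/

/-- a function on three rows -/
def tri (f0 f1 f2 : ℕ → ℕ) (p : ℕ × Fin 3) : ℕ :=
  if p.2 = 0 then f0 p.1 else if p.2 = 1 then f1 p.1 else f2 p.1

section

variable (f0 f1 f2 : ℕ → ℕ) (x : ℕ)

@[simp] theorem tri0 : tri f0 f1 f2 (x, 0) = f0 x := rfl
@[simp] theorem tri1 : tri f0 f1 f2 (x, 1) = f1 x := rfl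
@[simp] theorem tri2 : tri f0 f1 f2 (x, 2) = f2 x := rfl

end

theorem forall3 {V : Finset ℕ} {P : ℕ × Fin 3 → Prop} (h : ∀ x ∈ V, P (x, 0) ∧ P (x, 1) ∧ P (x, 2)) :
    ∀ i ∈ V ×ˢ (Finset.univ : Finset (Fin 3)), P i := by
  rintro ⟨x, j⟩ hi
  have hx : x ∈ V := (Finset.mem_product.1 hi).1
  obtain ⟨h0, h1, h2⟩ := h x hx
  fin_cases j
  · exact h0
  · exact h1
  · exact h2

theorem forall2 {V : Finset ℕ} {P : ℕ × Fin 3 → Prop} (h : ∀ x ∈ V, P (x, 1) ∧ P (x, 2)) :
    ∀ i ∈ V ×ˢ ({1, 2} : Finset (Fin 3)), P i := by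
  rintro ⟨x, j⟩ hi
  obtain ⟨hx, hj⟩ := Finset.mem_product.1 hi
  obtain ⟨h1, h2⟩ := h x hx
  rw [Finset.mem_insert, Finset.mem_singleton] at hj
  rcases hj with hj | hj
  · change j = 1 at hj
    rw [hj]
    exact h1
  · change j = 2 at hj
    rw [hj]
    exact h2

theorem inj (j : Fin 3) : Function.Injective fun x : ℕ => (x, j) := fun _ _ h => (Prod.mk.inj h).1

theorem ne {i j : Fin 3} (h : i ≠ j) (x : ℕ) : ∀ y : ℕ, (y, i) ≠ (x, j) :=
  fun _ h1 => h (Prod.mk.inj h1).2

theorem choose2 (x : ℕ) : 2 * (x + 1).choose 2 = x * (x + 1) := by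
  rw [Nat.choose_two_right, Nat.add_sub_cancel, mul_comm (x + 1) x]
  exact Nat.mul_div_cancel' (Nat.even_mul_succ_self x).two_dvd

theorem binom (x a b : ℕ) : (4 * (4 * a + b)) * (x + 1).choose 2 =
    a * (4 * x + 1).choose 2 + b * (2 * x + 1).choose 2 + (4 * a + b) * x + a * (2 * x) := by
  have h1 := choose2 x
  have h2 := choose2 (2 * x)
  have h3 := choose2 (4 * x)
  have h4 : 2 * (4 * (4 * a + b) * (x + 1).choose 2) =
      2 * (a * (4 * x + 1).choose 2 + b * (2 * x + 1).choose 2 + (4 * a + b) * x + a * (2 * x)) := by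
    calc 2 * (4 * (4 * a + b) * (x + 1).choose 2) = (4 * (4 * a + b)) * (2 * (x + 1).choose 2) := by
          ring
      _ = a * (2 * (4 * x + 1).choose 2) + b * (2 * (2 * x + 1).choose 2) +
          2 * ((4 * a + b) * x) + 2 * (a * (2 * x)) := by
          rw [h1, h2, h3]
          ring
      _ = _ := by ring
  omega

theorem t (hG : S_GLUE3) (hE : S_EMG) (hR : S_RGG) (hA : S_ARW) : S_TWOV := by
  intro c d Q V N hLW h1 h2
  obtain ⟨j2, s1, s0, hx, hreg, hY⟩ := hA c d Q V N hLW h1 h2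
  obtain ⟨hc, hVne, hVc, hQ, hx1⟩ := hLW
  have hk3 : 3 ≤ 20 * c := by omega
  have hkc : 6 * V.card ≤ (20 * c - 1) * (20 * c - 2) := by
    obtain ⟨e, rfl⟩ : ∃ e, c = e + 1 := ⟨c - 1, by omega⟩
    have e1 : 20 * (e + 1) - 1 = 20 * e + 19 := by omega
    have e2 : 20 * (e + 1) - 2 = 20 * e + 18 := by omega
    rw [e1, e2]
    nlinarith
  have hI3 : (V ×ˢ (Finset.univ : Finset (Fin 3))).card = 3 * V.card := by
    rw [Finset.card_product, Finset.card_univ, Fintype.card_fin, mul_comm]
  have hI2 : (V ×ˢ ({1, 2} : Finset (Fin 3))).card = 2 * V.card := by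
    rw [Finset.card_product, Finset.card_pair (by decide), mul_comm]
  have hI3ne : (V ×ˢ (Finset.univ : Finset (Fin 3))).Nonempty :=
    hVne.product Finset.univ_nonempty
  have hI2ne : (V ×ˢ ({1, 2} : Finset (Fin 3))).Nonempty := hVne.product (by simp)
  have hmem3 : ∀ x ∈ V, ∀ j : Fin 3, (x, j) ∈ V ×ˢ (Finset.univ : Finset (Fin 3)) :=
    fun x hxV j => Finset.mem_product.2 ⟨hxV, Finset.mem_univ _⟩
  have hmem21 : ∀ x ∈ V, (x, (1 : Fin 3)) ∈ V ×ˢ ({1, 2} : Finset (Fin 3)) :=
    fun x hxV => Finset.mem_product.2 ⟨hxV, by simp⟩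
  have hmem22 : ∀ x ∈ V, (x, (2 : Fin 3)) ∈ V ×ˢ ({1, 2} : Finset (Fin 3)) :=
    fun x hxV => Finset.mem_product.2 ⟨hxV, by simp⟩
  obtain ⟨N0, hN0⟩ : ∃ N0, N0 = (d + 2).choose 2 - ∑ x ∈ V, N x * (x + 1).choose 2 := ⟨_, rfl⟩
  obtain ⟨j1, hj1⟩ : ∃ j1 : ℕ → ℕ, j1 = fun x => 4 * j2 x + s1 x := ⟨_, rfl⟩
  have hg1s : (rep V j1 fun x => x).sum = ∑ x ∈ V, (4 * j2 x + s1 x) * x := by
    rw [sum_rep, hj1]
  have hsplit : (∑ x ∈ V, rp (N x) x) = 4 • (rep V j1 fun x => x) + rep V s0 fun x => x := by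
    rw [rep_smul, rep_add]
    refine Finset.sum_congr rfl fun x hxV => ?_
    rw [(hx x hxV).1, hj1]
  rw [hsplit, ← hN0]
  refine hG d N0 _ _ ?_ ?_ ?_
  · intro v hv
    obtain ⟨x, hxV, hvx⟩ := mem_rep hv
    rw [hvx]
    exact (hx1 x hxV).1
  · -- the second gluing
    have hs2 : (rep V j1 fun x => x).map (fun v => 2 * v) + (rep V s0 fun x => x) =
        4 • (rep V j2 fun x => 2 * x) + (rep V s1 fun x => 2 * x) + (rep V s0 fun x => x) := by
      rw [map_rep, rep_smul, rep_add, hj1]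
    rw [hs2, add_assoc]
    obtain ⟨N1, hN1⟩ : ∃ N1, N1 = N0 + (rep V j1 fun x => x).sum := ⟨_, rfl⟩
    rw [← hN1]
    refine hG d N1 _ _ ?_ ?_ ?_
    · intro v hv
      obtain ⟨x, hxV, rfl⟩ := mem_rep hv
      have := (hx1 x hxV).1
      omega
    · -- regularity
      obtain ⟨T, hT⟩ : ∃ T : Multiset ((ℕ × Fin 3) × ℕ), T = (rep V j2 fun x => ((x, 0), 4 * x)) +
        ((rep V s1 fun x => ((x, 1), 2 * x)) + (rep V s0 fun x => ((x, 2), x))) := ⟨_, rfl⟩
      have hTs : T.map Prod.snd = (rep V j2 fun x => 2 * x).map (fun v => 2 * v) +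
          ((rep V s1 fun x => 2 * x) + rep V s0 fun x => x) := by
        rw [hT, Multiset.map_add, Multiset.map_add, map_rep, map_rep, map_rep, map_rep]
        congr 1
        refine rep_congr (fun x _ => rfl) fun x _ => ?_
        change 4 * x = 2 * (2 * x)
        ring
      have hTf : T.map Prod.fst = (rep V j2 fun x => (x, (0 : Fin 3))) +
          ((rep V s1 fun x => (x, (1 : Fin 3))) + rep V s0 fun x => (x, (2 : Fin 3))) := by
        rw [hT, Multiset.map_add, Multiset.map_add, map_rep, map_rep, map_rep]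
      rw [← hTs]
      refine hR (ℕ × Fin 3) d (20 * c) _ (V ×ˢ Finset.univ)
        (tri (fun x => 4 * x + 1) (fun x => 2 * x + 1) (fun x => x + 1)) (tri j2 s1 s0) T hI3ne
        ?_ ?_ hk3 (by rw [hI3]; omega) ?_ ?_ ?_
      · intro p hp
        rw [hT, Multiset.mem_add, Multiset.mem_add] at hp
        rcases hp with hp | hp | hp
        · obtain ⟨x, hxV, rfl⟩ := mem_rep hp
          exact ⟨hmem3 x hxV 0, le_refl _⟩
        · obtain ⟨x, hxV, rfl⟩ := mem_rep hp
          exact ⟨hmem3 x hxV 1, le_refl _⟩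
        · obtain ⟨x, hxV, rfl⟩ := mem_rep hp
          exact ⟨hmem3 x hxV 2, le_refl _⟩
      · intro i hi
        rw [card_filter, hTf, Multiset.count_add, Multiset.count_add]
        revert i
        apply forall3
        intro x hxV
        refine ⟨?_, ?_, ?_⟩
        · rw [count_rep _ _ (inj 0) hxV, count_rep_ne _ _ (ne (by decide) x),
            count_rep_ne _ _ (ne (by decide) x)]
          rfl
        · rw [count_rep_ne _ _ (ne (by decide) x), count_rep _ _ (inj 1) hxV,
            count_rep_ne _ _ (ne (by decide) x), Nat.zero_add]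
          rfl
        · rw [count_rep_ne _ _ (ne (by decide) x), count_rep_ne _ _ (ne (by decide) x),
            count_rep _ _ (inj 2) hxV, Nat.zero_add, Nat.zero_add]
          rfl
      · apply forall3
        intro x hxV
        obtain ⟨-, b1, b2, b3, -, -, -, -, b4, b5, b6, b7⟩ := hx x hxV
        have b8 : 20 * c * (2 * x + 1) ≤ 20 * c * (4 * x + 1) := Nat.mul_le_mul_left _ (by omega)
        have b9 : 20 * c * (x + 1) ≤ 20 * c * (4 * x + 1) := Nat.mul_le_mul_left _ (by omega)
        simp only [tri0, tri1, tri2]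
        exact ⟨⟨by omega, by omega, b4, b5⟩, ⟨by omega, by omega, by omega, b6⟩,
          ⟨by omega, by omega, by omega, b7⟩⟩
      · rw [Finset.sum_product]
        simp only [Fin.sum_univ_three, tri0, tri1, tri2]
        exact hreg
      · rw [hT, Multiset.map_add, Multiset.map_add, Multiset.sum_add, Multiset.sum_add,
          sum_map_rep, sum_map_rep, sum_map_rep, sum_rep, hN1, hg1s]
        have e1 : (d + 2).choose 2 ≤ N0 + ∑ x ∈ V, N x * (x + 1).choose 2 := by
          rw [hN0]; exact le_tsub_add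
        have e2 : ∑ x ∈ V, N x * (x + 1).choose 2 = ∑ x ∈ V, (4 * j2 x + s1 x) * x +
            ∑ x ∈ V, j2 x * (2 * x) + (∑ x ∈ V, j2 x * (4 * x + 1).choose 2 +
              (∑ x ∈ V, s1 x * (2 * x + 1).choose 2 + ∑ x ∈ V, s0 x * (x + 1).choose 2)) := by
          rw [← Finset.sum_add_distrib, ← Finset.sum_add_distrib, ← Finset.sum_add_distrib,
            ← Finset.sum_add_distrib]
          refine Finset.sum_congr rfl fun x hxV => ?_
          rw [(hx x hxV).1, add_mul, binom]
          ring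
        rw [e2] at e1
        dsimp only
        omega
    · -- emptiness, second gluing
      intro A B u hg
      have hu : u ∈ rep V j2 fun x => 2 * x := by rw [← hg]; exact Multiset.mem_cons_self _ _
      obtain ⟨xu, hxu, hu2⟩ := mem_rep hu
      have hxu1 := (hx1 xu hxu).1
      obtain ⟨q, hq⟩ : ∃ q, q = (N1 + B.sum) / u := ⟨_, rfl⟩
      have hqu : N1 + B.sum < u * (q + 1) := by
        rw [hq]
        exact Nat.lt_mul_div_succ _ (by omega)
      rw [← hq]
      have hLs : ((rep V s1 fun x => ((x, (1 : Fin 3)), 2 * x)) +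
          (rep V s0 fun x => ((x, (2 : Fin 3)), x))).map Prod.snd =
          (rep V s1 fun x => 2 * x) + rep V s0 fun x => x := by
        rw [Multiset.map_add, map_rep, map_rep]
      rw [← hLs]
      refine em hE d (20 * c) Q (V ×ˢ Finset.univ) (tri (fun x => 4 * x) (fun x => 2 * x) fun x => x)
        (tri j2 s1 s0) (rep V j2 fun x => 2 * x) A B u q (fun v => (v / 2, 0)) _ hg ?_ ?_ ?_
        hI3ne hk3 (by rw [hI3]; omega) ?_ ?_ ?_
      · intro v hv
        obtain ⟨x, hxV, rfl⟩ := mem_rep hv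
        have e1 : 2 * x / 2 = x := by omega
        simp only [e1, tri0]
        exact ⟨hmem3 x hxV 0, by ring⟩
      · intro p hp
        rw [Multiset.mem_add] at hp
        rcases hp with hp | hp
        · obtain ⟨x, hxV, rfl⟩ := mem_rep hp
          exact ⟨hmem3 x hxV 1, rfl⟩
        · obtain ⟨x, hxV, rfl⟩ := mem_rep hp
          exact ⟨hmem3 x hxV 2, rfl⟩
      · intro i hi
        have e1 : (rep V j2 fun x => 2 * x).map (fun v => (v / 2, (0 : Fin 3))) =
            rep V j2 fun x => (x, (0 : Fin 3)) := by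
          rw [map_rep]
          refine rep_congr (fun x _ => rfl) fun x _ => ?_
          have e1 : 2 * x / 2 = x := by omega
          rw [e1]
        rw [e1, Multiset.map_add, map_rep, map_rep, Multiset.count_add]
        revert i
        apply forall3
        intro x hxV
        refine ⟨?_, ?_, ?_⟩
        · rw [count_rep _ _ (inj 0) hxV, count_rep_ne _ _ (ne (by decide) x),
            count_rep_ne _ _ (ne (by decide) x)]
          rfl
        · rw [count_rep_ne _ _ (ne (by decide) x), count_rep _ _ (inj 1) hxV,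
            count_rep_ne _ _ (ne (by decide) x), Nat.zero_add]
          rfl
        · rw [count_rep_ne _ _ (ne (by decide) x), count_rep_ne _ _ (ne (by decide) x),
            count_rep _ _ (inj 2) hxV, Nat.zero_add, Nat.zero_add]
          rfl
      · apply forall3
        intro x hxV
        obtain ⟨-, b1, b2, b3, b4, b5, b6, b7, -⟩ := hx x hxV
        have hx0 := (hx1 x hxV).1
        have b8 : (20 * c * (2 * x)) ^ 2 ≤ (20 * c * (4 * x)) ^ 2 :=
          Nat.pow_le_pow_left (Nat.mul_le_mul_left _ (by omega)) 2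
        have b9 : (20 * c * x) ^ 2 ≤ (20 * c * (4 * x)) ^ 2 :=
          Nat.pow_le_pow_left (Nat.mul_le_mul_left _ (by omega)) 2
        simp only [tri0, tri1, tri2]
        exact ⟨⟨by omega, b1, b4, b5⟩, ⟨by omega, b2, b8.trans b4, b6⟩,
          ⟨by omega, b3, b9.trans b4, b7⟩⟩
      · rw [hQ, Finset.sum_product]
        simp only [Fin.sum_univ_three, tri0, tri1, tri2]
        refine Finset.sum_congr rfl fun x hxV => ?_
        rw [(hx x hxV).1]
        ring
      · refine (hY xu hxu).trans_le (Nat.pow_le_pow_left ?_ 2)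
        rw [hN1, hg1s] at hqu
        omega
  · -- emptiness, first gluing
    intro A B u hg
    have hu : u ∈ rep V j1 fun x => x := by rw [← hg]; exact Multiset.mem_cons_self _ _
    obtain ⟨xu, hxu, hu2⟩ := mem_rep hu
    have hxu1 := (hx1 xu hxu).1
    obtain ⟨q, hq⟩ : ∃ q, q = (N0 + B.sum) / u := ⟨_, rfl⟩
    have hqu : N0 + B.sum < u * (q + 1) := by
      rw [hq]
      exact Nat.lt_mul_div_succ _ (by omega)
    rw [← hq]
    have hLs : ((rep V s0 fun x => ((x, (2 : Fin 3)), x))).map Prod.snd = rep V s0 fun x => x := by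
      rw [map_rep]
    rw [← hLs]
    refine em hE d (20 * c) Q (V ×ˢ {1, 2}) (tri (fun x => 4 * x) (fun x => 2 * x) fun x => x)
      (tri j2 j1 s0) (rep V j1 fun x => x) A B u q (fun v => (v, 1)) _ hg ?_ ?_ ?_
      hI2ne hk3 (by rw [hI2]; omega) ?_ ?_ ?_
    · intro v hv
      obtain ⟨x, hxV, hvx⟩ := mem_rep hv
      rw [hvx]
      exact ⟨hmem21 x hxV, rfl⟩
    · intro p hp
      obtain ⟨x, hxV, rfl⟩ := mem_rep hp
      exact ⟨hmem22 x hxV, rfl⟩
    · intro i hi
      rw [map_rep, map_rep]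
      revert i
      apply forall2
      intro x hxV
      refine ⟨?_, ?_⟩
      · rw [count_rep _ _ (inj 1) hxV, count_rep_ne _ _ (ne (by decide) x)]
        rfl
      · rw [count_rep_ne _ _ (ne (by decide) x), count_rep _ _ (inj 2) hxV, Nat.zero_add]
        rfl
    · apply forall2
      intro x hxV
      obtain ⟨-, b1, b2, b3, b4, b5, b6, b7, -⟩ := hx x hxV
      have hx0 := (hx1 x hxV).1
      have b8 : (20 * c * (2 * x)) ^ 2 ≤ (20 * c * (4 * x)) ^ 2 :=
        Nat.pow_le_pow_left (Nat.mul_le_mul_left _ (by omega)) 2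
      have b9 : (20 * c * x) ^ 2 ≤ (20 * c * (4 * x)) ^ 2 :=
        Nat.pow_le_pow_left (Nat.mul_le_mul_left _ (by omega)) 2
      have b10 : (20 * c * (s1 x * (2 * x))) ^ 2 ≤ (20 * c * (j1 x * (2 * x))) ^ 2 := by
        refine Nat.pow_le_pow_left (Nat.mul_le_mul_left _ (Nat.mul_le_mul_right _ ?_)) 2
        rw [hj1]
        exact Nat.le_add_left _ _
      have b11 : 2 ≤ j1 x := by
        rw [hj1]
        change 2 ≤ 4 * j2 x + s1 x
        omega
      simp only [tri1, tri2]
      exact ⟨⟨by omega, b11, b8.trans b4, b6.trans b10⟩, ⟨by omega, b3, b9.trans b4, b7⟩⟩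
    · rw [hQ, Finset.sum_product]
      refine Finset.sum_congr rfl fun x hxV => ?_
      rw [Finset.sum_pair (by decide), tri1, tri2, tri1, tri2, (hx x hxV).1, hj1]
      ring
    · refine (hY xu hxu).trans_le (Nat.pow_le_pow_left ?_ 2)
      have e1 : (rep V j1 fun x => x).sum = u + (A.sum + B.sum) := by
        rw [← hg, Multiset.sum_cons, Multiset.sum_add]
      rw [hg1s] at e1
      omega

end Pool.Agent.Helper72.UC.TWOV
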