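import Pool.Agent.Helper27.UC.Goals4

/-!
PROJECT UC (MP_d3128a_ag): packet ONEV, the degrees next to the critical one (several multiplicities).
-/

set_option autoImplicit false

noncomputable section

namespace Pool.Agent.Helper72.UC.ONEV

open Pool.Agent.Helper27.UC

theorem map_rp (V : Finset ℕ) (j F : ℕ → ℕ) :
    (∑ x ∈ V, rp (j x) x).map F = ∑ x ∈ V, rp (j x) (F x) := by
  induction V using Finset.induction_on with
  | empty => simp
  | insert a s ha ih =>
    rw [Finset.sum_insert ha, Multiset.map_add, ih, Finset.sum_insert ha, Multiset.map_replicate]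

theorem sum_map_rp (V : Finset ℕ) (j F : ℕ → ℕ) :
    ((∑ x ∈ V, rp (j x) x).map F).sum = ∑ x ∈ V, j x * F x := by
  induction V using Finset.induction_on with
  | empty => simp
  | insert a s ha ih =>
    rw [Finset.sum_insert ha, Multiset.map_add, Multiset.sum_add, ih, Finset.sum_insert ha,
      Multiset.map_replicate, Multiset.sum_replicate, smul_eq_mul]

theorem sum_rp (V : Finset ℕ) (j : ℕ → ℕ) :
    (∑ x ∈ V, rp (j x) x).sum = ∑ x ∈ V, j x * x := by
  have h := sum_map_rp V j id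
  rwa [Multiset.map_id] at h

theorem card_rp (V : Finset ℕ) (j : ℕ → ℕ) :
    Multiset.card (∑ x ∈ V, rp (j x) x) = ∑ x ∈ V, j x := by
  rw [Multiset.card_sum]
  exact Finset.sum_congr rfl fun x _ => Multiset.card_replicate _ _

theorem mem_rp {V : Finset ℕ} {j : ℕ → ℕ} {v : ℕ} (h : v ∈ ∑ x ∈ V, rp (j x) x) : v ∈ V := by
  obtain ⟨x, hx, hv⟩ := Multiset.mem_sum.1 h
  rw [Multiset.eq_of_mem_replicate hv]
  exact hx

theorem count_rp {V : Finset ℕ} (j : ℕ → ℕ) {x : ℕ} (hx : x ∈ V) :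
    Multiset.count x (∑ y ∈ V, rp (j y) y) = j x := by
  rw [Multiset.count_sum']
  rw [Finset.sum_eq_single x]
  · rw [Multiset.count_replicate_self]
  · intro y _ hyx
    rw [Multiset.count_replicate, if_neg hyx]
  · intro h
    exact absurd hx h

theorem tri2 (x : ℕ) : 2 * (x + 1).choose 2 = x * (x + 1) := by
  rw [Nat.choose_two_right, Nat.add_sub_cancel, mul_comm (x + 1) x]
  exact Nat.mul_div_cancel' (Nat.even_mul_succ_self x).two_dvd

theorem binom4 (x : ℕ) : (2 * x + 1).choose 2 + x = 4 * (x + 1).choose 2 := by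
  have h1 := tri2 x
  have h2 := tri2 (2 * x)
  have h3 : 2 * x * (2 * x + 1) = 4 * (x * (x + 1)) - 2 * x := by
    have : 4 * (x * (x + 1)) = 2 * x * (2 * x + 1) + 2 * x := by ring
    omega
  have h4 : x ≤ x * (x + 1) := Nat.le_mul_of_pos_right x (Nat.succ_pos x)
  omega

theorem bsum (B : Multiset ℕ) : (B.map fun v => 2 * (2 * v + 1) * (2 * v + 1)).sum =
    (B.map fun v => 2 * (2 * v + 1) * (2 * v)).sum + 4 * B.sum + 2 * Multiset.card B := by
  induction B using Multiset.induction_on with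
  | empty => simp
  | cons a s ih =>
    simp only [Multiset.map_cons, Multiset.sum_cons, Multiset.card_cons]
    rw [ih]
    ring

theorem t (hG : S_GLUE3) (hE : S_EMX) (hR : S_RGX) (hA : S_ARV) : S_ONEV := by
  intro c d D V N hLV h1 h2
  obtain ⟨j, s, hx, hreg, hY⟩ := hA c d D V N hLV h1 h2
  obtain ⟨hc, hVne, hVc, hD, -, hx2⟩ := hLV
  have hsplit : 4 • (∑ x ∈ V, rp (j x) x) + ∑ x ∈ V, rp (s x) x = ∑ x ∈ V, rp (N x) x := by
    rw [Finset.smul_sum, ← Finset.sum_add_distrib]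
    refine Finset.sum_congr rfl fun x hxV => ?_
    rw [(hx x hxV).1, Multiset.nsmul_replicate, ← Multiset.replicate_add]
  have hk3 : 3 ≤ 20 * c := by omega
  have hkc : 4 * V.card ≤ (20 * c - 1) * (20 * c - 2) := by
    obtain ⟨e, rfl⟩ : ∃ e, c = e + 1 := ⟨c - 1, by omega⟩
    have e1 : 20 * (e + 1) - 1 = 20 * e + 19 := by omega
    have e2 : 20 * (e + 1) - 2 = 20 * e + 18 := by omega
    rw [e1, e2]
    nlinarith
  have hNC : ∑ x ∈ V, N x * (x + 1).choose 2 = (∑ x ∈ V, rp (j x) x).sum +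
      ∑ x ∈ V, (j x * (2 * x + 1).choose 2 + s x * (x + 1).choose 2) := by
    rw [sum_rp, ← Finset.sum_add_distrib]
    refine Finset.sum_congr rfl fun x hxV => ?_
    rw [(hx x hxV).1]
    have := binom4 x
    calc (4 * j x + s x) * (x + 1).choose 2 = j x * (4 * (x + 1).choose 2) +
        s x * (x + 1).choose 2 := by ring
      _ = _ := by rw [← this]; ring
  rw [← hsplit]
  refine hG d _ _ _ ?_ ?_ ?_
  · intro v hv
    have := (hx2 v (mem_rp hv)).1
    omega
  · rw [map_rp]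
    refine hR d (20 * c) _ V j s hVne hk3 hkc ?_ hreg ?_
    · intro x hxV
      obtain ⟨-, b1, b2, -, -, -, b3, b4, b5⟩ := hx x hxV
      exact ⟨by omega, by omega, b3, b4, b5⟩
    · rw [add_assoc, ← hNC]
      exact le_tsub_add
  · intro A B u hg
    obtain ⟨N', hN'⟩ : ∃ N', N' = (d + 2).choose 2 - ∑ x ∈ V, N x * (x + 1).choose 2 := ⟨_, rfl⟩
    rw [← hN']
    have huV : u ∈ V := by
      apply mem_rp (j := j)
      rw [← hg]
      exact Multiset.mem_cons_self _ _
    have hu2 : 2 ≤ u := (hx2 u huV).1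
    obtain ⟨q, hq⟩ : ∃ q, q = (N' + B.sum) / u := ⟨_, rfl⟩
    rw [← hq]
    have hqu : N' + B.sum < u * (q + 1) := by
      rw [hq]
      exact Nat.lt_mul_div_succ _ (by omega)
    obtain ⟨T, hT⟩ : ∃ T : Multiset (ℕ × ℕ), T = (u, 2 * u + 1 + q) ::ₘ
      (A.map (fun v => (v, 2 * v + 1)) + B.map (fun v => (v, 2 * v))) := ⟨_, rfl⟩
    have hTf : T.map Prod.fst = ∑ x ∈ V, rp (j x) x := by
      rw [hT, ← hg, Multiset.map_cons, Multiset.map_add, Multiset.map_map, Multiset.map_map]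
      simp only [Function.comp_def, Multiset.map_id']
    have hTs : T.map Prod.snd = (2 * u + 1 + q) ::ₘ
        (A.map (fun v => 2 * v + 1) + B.map (fun v => 2 * v)) := by
      rw [hT, Multiset.map_cons, Multiset.map_add, Multiset.map_map, Multiset.map_map]
      rfl
    rw [← Multiset.cons_add, ← hTs]
    refine hE d (20 * c) D V j s T hVne ?_ ?_ hk3 hkc ?_ ?_ ?_ ?_
    · intro p hp
      apply mem_rp (j := j)
      rw [← hTf]
      exact Multiset.mem_map_of_mem _ hp
    · intro x hxV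
      rw [← count_rp j hxV, ← hTf, Multiset.count_map]
      congr 1
      exact Multiset.filter_congr fun p _ => eq_comm
    · intro x hxV
      exact ⟨(hx x hxV).2.1, (hx x hxV).2.2.1⟩
    · rw [hD]
      refine Finset.sum_congr rfl fun x hxV => ?_
      rw [(hx x hxV).1]
    · intro x hxV
      obtain ⟨-, -, -, b1, b2, b3, -⟩ := hx x hxV
      exact ⟨b1, b2, b3⟩
    · -- the main inequality
      have hTF : (T.map fun p => 2 * (2 * p.1 + 1) * p.2).sum =
          2 * (2 * u + 1) * (2 * u + 1 + q) + ((A.map fun v => 2 * (2 * v + 1) * (2 * v + 1)).sum +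
            (B.map fun v => 2 * (2 * v + 1) * (2 * v)).sum) := by
        rw [hT, Multiset.map_cons, Multiset.map_add, Multiset.map_map, Multiset.map_map,
          Multiset.sum_cons, Multiset.sum_add]
        rfl
      have hGF : ∑ x ∈ V, j x * (2 * (2 * x + 1) * (2 * x + 1)) =
          2 * (2 * u + 1) * (2 * u + 1) + ((A.map fun v => 2 * (2 * v + 1) * (2 * v + 1)).sum +
            (B.map fun v => 2 * (2 * v + 1) * (2 * v + 1)).sum) := by
        rw [← sum_map_rp V j (fun v => 2 * (2 * v + 1) * (2 * v + 1)), ← hg, Multiset.map_cons,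
          Multiset.map_add, Multiset.sum_cons, Multiset.sum_add]
      rw [bsum B] at hGF
      have hcard : Multiset.card B + 1 ≤ ∑ x ∈ V, j x := by
        rw [← card_rp V j, ← hg, Multiset.card_cons, Multiset.card_add]
        omega
      have hDs : D = 2 * (∑ x ∈ V, j x * (2 * (2 * x + 1) * (2 * x + 1))) +
          (2 * (∑ x ∈ V, (2 * x + 1) * (s x * x)) + ∑ x ∈ V, s x * (2 * x + 1)) := by
        rw [hD, Finset.mul_sum, Finset.mul_sum, ← Finset.sum_add_distrib, ← Finset.sum_add_distrib]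
        refine Finset.sum_congr rfl fun x hxV => ?_
        rw [(hx x hxV).1]
        ring
      have hYu := hY u huV
      obtain ⟨W1, hW1⟩ : ∃ W1, W1 = (T.map fun p => 2 * (2 * p.1 + 1) * p.2).sum := ⟨_, rfl⟩
      obtain ⟨W2, hW2⟩ : ∃ W2, W2 = ∑ x ∈ V, (2 * x + 1) * (s x * x) := ⟨_, rfl⟩
      obtain ⟨G, hGd⟩ : ∃ G, G = ∑ x ∈ V, j x * (2 * (2 * x + 1) * (2 * x + 1)) := ⟨_, rfl⟩
      obtain ⟨σ, hσ⟩ : ∃ σ, σ = ∑ x ∈ V, s x * (2 * x + 1) := ⟨_, rfl⟩
      obtain ⟨J, hJ⟩ : ∃ J, J = ∑ x ∈ V, j x := ⟨_, rfl⟩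
      rw [← hW1] at hTF
      rw [← hGd] at hGF hDs
      rw [← hW2, ← hσ] at hDs
      rw [← hσ, ← hJ] at hYu
      rw [← hJ] at hcard
      rw [← hW1, ← hW2]
      obtain ⟨sA, hsA⟩ : ∃ sA, sA = (A.map fun v => 2 * (2 * v + 1) * (2 * v + 1)).sum := ⟨_, rfl⟩
      obtain ⟨sB, hsB⟩ : ∃ sB, sB = (B.map fun v => 2 * (2 * v + 1) * (2 * v)).sum := ⟨_, rfl⟩
      rw [← hsA, ← hsB] at hTF hGF
      have hmain : D ≤ 2 * (W1 + W2) + (σ + 4 * J + 8 * u) := by
        have a1 : 2 * (2 * u + 1) * (2 * u + 1 + q) = 2 * (2 * u + 1) * (2 * u + 1) +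
          4 * (u * q) + 2 * q := by ring
        have a2 : u * (q + 1) = u * q + u := by ring
        rw [a1] at hTF
        rw [a2] at hqu
        omega
      -- real numbers
      have hS2 : √(D : ℝ) ^ 2 = D := Real.sq_sqrt (Nat.cast_nonneg D)
      have hS0 : 0 ≤ √(D : ℝ) := Real.sqrt_nonneg _
      have hSd : (2 * (d : ℝ) + 1) < √(D : ℝ) := by
        apply Real.lt_sqrt_of_sq_lt
        exact_mod_cast h1
      have hSY : ((σ : ℝ) + 4 * J + 8 * u) < √(D : ℝ) := by
        apply Real.lt_sqrt_of_sq_lt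
        exact_mod_cast hYu
      have hm : (D : ℝ) ≤ 2 * (W1 + W2) + (σ + 4 * J + 8 * u) := by exact_mod_cast hmain
      have hd0 : (0 : ℝ) ≤ d := Nat.cast_nonneg d
      have hW : √(D : ℝ) * d < (W1 : ℝ) + W2 := by nlinarith
      have hfin : (√(D : ℝ) * d) ^ 2 < ((W1 : ℝ) + W2) ^ 2 :=
        pow_lt_pow_left₀ hW (by positivity) (by norm_num)
      rw [mul_pow, hS2] at hfin
      exact_mod_cast hfin

end Pool.Agent.Helper72.UC.ONEV
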